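import Pool.Agent.MargS.Seq
import Pool.Agent.Marg.Equi

/-!
# Hausdorff dimension of the exceptional set of speeds, for flows
-/

open Finset Real MeasureTheory Filter Topology Marg
open scoped ENNReal NNReal Pointwise

namespace MargS

/-- the averages of `z` over intervals of length `1 / J` -/
noncomputable def av (z : ℝ → ℝ) (J n : ℕ) : ℝ :=
  J * ∫ t in ((n : ℝ) / J)..(((n : ℝ) + 1) / J), z t

lemma av_sum {z : ℝ → ℝ} (hz : Continuous z) (J n : ℕ) :
    ∑ k ∈ range n, av z J k = J * ∫ t in (0 : ℝ)..((n : ℝ) / J), z t := by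
  induction n with
  | zero => simp
  | succ n ih =>
    rw [Finset.sum_range_succ, ih]
    unfold av
    rw [← mul_add, intervalIntegral.integral_add_adjacent_intervals (hz.intervalIntegrable _ _)
      (hz.intervalIntegrable _ _)]
    push_cast
    rfl

lemma av_bdd {z : ℝ → ℝ} {C : ℝ} (hC : ∀ t, |z t| ≤ C) {J : ℕ} (hJ : 0 < J) (n : ℕ) :
    |av z J n| ≤ C := by
  have hJ' : (0 : ℝ) < J := by exact_mod_cast hJ
  have h1 := intervalIntegral.norm_integral_le_of_norm_le_const (a := (n : ℝ) / J)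
    (b := ((n : ℝ) + 1) / J) (f := z) (C := C) fun t _ => by rw [Real.norm_eq_abs]; exact hC t
  have e1 : ((n : ℝ) + 1) / J - (n : ℝ) / J = 1 / J := by ring
  rw [e1, Real.norm_eq_abs, abs_of_pos (by positivity : (0 : ℝ) < 1 / J)] at h1
  unfold av
  rw [abs_mul, abs_of_pos hJ']
  calc (J : ℝ) * |∫ t in ((n : ℝ) / J)..(((n : ℝ) + 1) / J), z t| ≤ J * (C * (1 / J)) := by gcongr
    _ = C := by field_simp

lemma av_close {z : ℝ → ℝ} (hz : Continuous z) {ε : ℝ} {J : ℕ} (hJ : 0 < J)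
    (h : ∀ t t' : ℝ, |t - t'| ≤ 1 / J → |z t - z t'| ≤ ε) {r : ℝ} (hr : 0 ≤ r) :
    |av z J ⌊(J : ℝ) * r⌋₊ - z r| ≤ ε := by
  have hJ' : (0 : ℝ) < J := by exact_mod_cast hJ
  set n := ⌊(J : ℝ) * r⌋₊ with hn
  have h1 : (n : ℝ) ≤ J * r := Nat.floor_le (by positivity)
  have h2 : (J : ℝ) * r < n + 1 := Nat.lt_floor_add_one _
  have e1 : ((n : ℝ) + 1) / J - (n : ℝ) / J = 1 / J := by ring
  have h3 : av z J n - z r = J * ∫ t in ((n : ℝ) / J)..(((n : ℝ) + 1) / J), (z t - z r) := by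
    unfold av
    rw [intervalIntegral.integral_sub (hz.intervalIntegrable _ _)
      (continuous_const.intervalIntegrable _ _), intervalIntegral.integral_const, e1, mul_sub]
    congr 1
    rw [smul_eq_mul]
    field_simp
  have h4 := intervalIntegral.norm_integral_le_of_norm_le_const (a := (n : ℝ) / J)
    (b := ((n : ℝ) + 1) / J) (f := fun t => z t - z r) (C := ε) fun t ht => by
      rw [Set.uIoc_of_le (by gcongr; linarith)] at ht
      rw [Real.norm_eq_abs]
      apply h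
      have g1 := ht.1
      have g2 := ht.2
      rw [div_lt_iff₀ hJ'] at g1
      rw [le_div_iff₀ hJ'] at g2
      rw [abs_le]
      constructor
      · rw [neg_le_sub_iff_le_add, ← sub_le_iff_le_add, sub_le_iff_le_add]
        have : r * J ≤ (t + 1 / J) * J := by
          rw [add_mul, one_div, inv_mul_cancel₀ hJ'.ne']
          linarith
        exact le_of_mul_le_mul_right this hJ'
      · rw [sub_le_iff_le_add]
        have : t * J ≤ (1 / J + r) * J := by
          rw [add_mul, one_div, inv_mul_cancel₀ hJ'.ne']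
          linarith
        exact le_of_mul_le_mul_right this hJ'
  rw [e1, Real.norm_eq_abs, abs_of_pos (by positivity : (0 : ℝ) < 1 / J)] at h4
  rw [h3, abs_mul, abs_of_pos hJ']
  calc (J : ℝ) * |∫ t in ((n : ℝ) / J)..(((n : ℝ) + 1) / J), (z t - z r)|
      ≤ J * (ε * (1 / J)) := by gcongr
    _ = ε := by field_simp

/-- **Dimension bound for flows.** -/
theorem dim_speed_flow {z : ℝ → ℝ} (hz : Continuous z) {C : ℝ} (hC : ∀ t, |z t| ≤ C)
    (hu : ∀ ε : ℝ, 0 < ε → ∃ δ : ℝ, 0 < δ ∧ ∀ t t' : ℝ, |t - t'| ≤ δ → |z t - z t'| ≤ ε) {L : ℝ}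
    (hL : Tendsto (fun T : ℝ => (∫ t in (0 : ℝ)..T, z t) / T) atTop (𝓝 L)) {b : ℕ} {β : ℝ}
    (hβ : 1 ≤ β) (hb : β ≤ b) :
    dimH {s : ℝ | 0 < s ∧
      ¬ Tendsto (fun n : ℕ => (∑ k ∈ range n, z (s * (k : ℝ) ^ β)) / (n : ℝ)) atTop (𝓝 L)}
      ≤ sgN b := by
  set S : ℕ → Set ℝ := fun J => {s : ℝ | 0 < s ∧
    ¬ Tendsto (fun n : ℕ => (∑ k ∈ range n, av z (J + 1) ⌊s * (k : ℝ) ^ β⌋₊) / (n : ℝ))
      atTop (𝓝 L)} with hS
  have hdS : ∀ J, dimH (S J) ≤ sgN b := by
    intro J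
    refine dim_speed (z := av z (J + 1)) (fun n => av_bdd hC (Nat.succ_pos J) n) ?_ hβ hb
    have hJ' : (0 : ℝ) < ((J + 1 : ℕ) : ℝ) := by positivity
    have h1 : Tendsto (fun n : ℕ => (n : ℝ) / ((J + 1 : ℕ) : ℝ)) atTop atTop :=
      tendsto_natCast_atTop_atTop.atTop_div_const hJ'
    refine (hL.comp h1).congr fun n => ?_
    rw [av_sum hz]
    simp only [Function.comp_apply]
    field_simp
  have himg : ∀ J : ℕ, dimH ((fun s : ℝ => s / ((J + 1 : ℕ) : ℝ)) '' S J) ≤ dimH (S J) := by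
    intro J
    apply ContDiffOn.dimH_image_le (s := Set.univ) (f := fun s : ℝ => s / ((J + 1 : ℕ) : ℝ)) _
      convex_univ (Set.subset_univ _)
    exact (contDiff_id.div_const _).contDiffOn
  have hsub : {s : ℝ | 0 < s ∧
      ¬ Tendsto (fun n : ℕ => (∑ k ∈ range n, z (s * (k : ℝ) ^ β)) / (n : ℝ)) atTop (𝓝 L)}
      ⊆ ⋃ J : ℕ, (fun s : ℝ => s / ((J + 1 : ℕ) : ℝ)) '' S J := by
    rintro s ⟨h1, h3⟩
    rw [Set.mem_iUnion]
    by_contra hcon
    push Not at hcon
    have hT : ∀ J : ℕ, Tendsto (fun n : ℕ =>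
        (∑ k ∈ range n, av z (J + 1) ⌊(((J + 1 : ℕ) : ℝ) * s) * (k : ℝ) ^ β⌋₊) / (n : ℝ))
        atTop (𝓝 L) := by
      intro J
      by_contra h4
      have hJ' : (0 : ℝ) < ((J + 1 : ℕ) : ℝ) := by positivity
      exact hcon J ⟨((J + 1 : ℕ) : ℝ) * s, ⟨by positivity, h4⟩, by
        simp only
        field_simp⟩
    apply h3
    rw [Metric.tendsto_atTop]
    intro ε hε
    obtain ⟨δ, hδ, hδ'⟩ := hu (ε / 2) (by positivity)
    obtain ⟨J, hJ⟩ := exists_nat_one_div_lt hδ
    obtain ⟨N0, hN0⟩ := Metric.tendsto_atTop.1 (hT J) (ε / 2) (by positivity)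
    refine ⟨max N0 1, fun n hn => ?_⟩
    have hn0 : N0 ≤ n := (le_max_left _ _).trans hn
    have hn1 : 1 ≤ n := (le_max_right _ _).trans hn
    have hnr : (0 : ℝ) < n := by exact_mod_cast hn1
    have h5 := hN0 n hn0
    rw [Real.dist_eq] at h5 ⊢
    have h6 : |(∑ k ∈ range n, z (s * (k : ℝ) ^ β)) / (n : ℝ) -
        (∑ k ∈ range n, av z (J + 1) ⌊(((J + 1 : ℕ) : ℝ) * s) * (k : ℝ) ^ β⌋₊) / (n : ℝ)|
        ≤ ε / 2 := by
      rw [← sub_div, ← Finset.sum_sub_distrib, abs_div, abs_of_pos hnr, div_le_iff₀ hnr]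
      calc |∑ k ∈ range n, (z (s * (k : ℝ) ^ β) -
            av z (J + 1) ⌊(((J + 1 : ℕ) : ℝ) * s) * (k : ℝ) ^ β⌋₊)|
          ≤ ∑ k ∈ range n, |z (s * (k : ℝ) ^ β) -
            av z (J + 1) ⌊(((J + 1 : ℕ) : ℝ) * s) * (k : ℝ) ^ β⌋₊| :=
            Finset.abs_sum_le_sum_abs _ _
        _ ≤ ∑ _k ∈ range n, ε / 2 := by
            refine Finset.sum_le_sum fun k _ => ?_
            rw [abs_sub_comm, mul_assoc]
            refine av_close hz (Nat.succ_pos J) (fun t t' ht => hδ' t t' (ht.trans ?_))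
              (by positivity)
            push_cast
            exact hJ.le
        _ = ε / 2 * n := by rw [Finset.sum_const, card_range, nsmul_eq_mul]; ring
    rw [abs_lt] at h5 ⊢
    rw [abs_le] at h6
    constructor <;> linarith [h5.1, h5.2, h6.1, h6.2]
  refine (dimH_mono hsub).trans ?_
  rw [dimH_iUnion]
  exact iSup_le fun J => (himg J).trans (hdS J)

/-- `y t`, `t ≥ 0`, is equidistributed in `X` with respect to `μ`: the averages of every
compactly supported continuous function along it converge to the integral of the function. -/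
def RealEquidistributed {X : Type*} [TopologicalSpace X] [MeasurableSpace X] (μ : Measure X)
    (y : ℝ → X) : Prop :=
  ∀ f : X → ℝ, Continuous f → HasCompactSupport f →
    Tendsto (fun T : ℝ => (∫ t in (0 : ℝ)..T, f (y t)) / T) atTop (𝓝 (∫ p, f p ∂μ))

section Action

variable {G : Type*} [Group G] [TopologicalSpace G] {X : Type*} [TopologicalSpace X]
  [MulAction G X] [ContinuousSMul G X]

/-- Compactly supported functions are uniformly continuous along a flow. -/
theorem unif_flow {u : ℝ → G} (huc : Continuous u) (hu : ∀ s t, u (s + t) = u s * u t)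
    {f : X → ℝ} (hf : Continuous f) (hfc : HasCompactSupport f) {ε : ℝ} (hε : 0 < ε) :
    ∃ δ : ℝ, 0 < δ ∧ ∀ t : ℝ, |t| ≤ δ → ∀ p : X, |f (u t • p) - f p| ≤ ε := by
  have hu0 : u 0 = 1 := by
    have h := hu 0 0
    rw [add_zero] at h
    exact left_eq_mul.1 h
  set K : Set X := (fun q : ℝ × X => u q.1 • q.2) '' (Set.Icc (-1 : ℝ) 1 ×ˢ tsupport f) with hK
  have hKc : IsCompact K :=
    (isCompact_Icc.prod hfc).image ((huc.comp continuous_fst).smul continuous_snd)
  have hev : ∀ᶠ t : ℝ in 𝓝 0, ∀ p ∈ K, |f (u t • p) - f p| < ε := by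
    apply hKc.eventually_forall_of_forall_eventually
    intro p _
    have hcont : Continuous fun q : ℝ × X => |f (u q.1 • q.2) - f q.2| :=
      ((hf.comp ((huc.comp continuous_fst).smul continuous_snd)).sub
        (hf.comp continuous_snd)).abs
    apply hcont.continuousAt.eventually_lt continuousAt_const
    simp only
    rw [hu0, one_smul, sub_self, abs_zero]
    exact hε
  obtain ⟨δ0, hδ0, h1⟩ := Metric.eventually_nhds_iff.1 hev
  refine ⟨min (δ0 / 2) 1, by positivity, fun t ht p => ?_⟩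
  have ht1 : |t| ≤ 1 := ht.trans (min_le_right _ _)
  have ht2 : |t| ≤ δ0 / 2 := ht.trans (min_le_left _ _)
  by_cases hp : p ∈ K
  · refine (h1 ?_ p hp).le
    rw [Real.dist_eq, sub_zero]
    linarith
  · have hfp : f p = 0 := by
      apply image_eq_zero_of_notMem_tsupport
      intro h
      apply hp
      refine ⟨(0, p), ⟨⟨by norm_num, by norm_num⟩, h⟩, ?_⟩
      simp only
      rw [hu0, one_smul]
    have hfp' : f (u t • p) = 0 := by
      apply image_eq_zero_of_notMem_tsupport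
      intro h
      apply hp
      rw [abs_le] at ht1
      refine ⟨(-t, u t • p), ⟨⟨by linarith [ht1.2], by linarith [ht1.1]⟩, h⟩, ?_⟩
      simp only
      rw [smul_smul, ← hu, neg_add_cancel, hu0, one_smul]
    rw [hfp, hfp', sub_self, abs_zero]
    exact hε.le

variable [LocallyCompactSpace X] [T2Space X] [SecondCountableTopology X] [MeasurableSpace X]
  [BorelSpace X] {μ : Measure X} [IsProbabilityMeasure μ]

/-- **Dimension bound for the speeds.** -/
theorem equidistributed_speed {u : ℝ → G} (huc : Continuous u)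
    (hu : ∀ s t, u (s + t) = u s * u t) {x : X}
    (hx : RealEquidistributed μ fun t => u t • x) {b : ℕ} {β : ℝ} (hβ : 1 ≤ β) (hb : β ≤ b) :
    dimH {s : ℝ | 0 < s ∧ ¬ Equidistributed μ fun n : ℕ => u (s * (n : ℝ) ^ β) • x} ≤ sgN b := by
  obtain ⟨F, hF, hd⟩ := exists_dense_family X
  have h1 : ∀ i, ∃ C : ℝ, ∀ x, |F i x| ≤ C := by
    intro i
    obtain ⟨C, hC⟩ := (hF i).1.bounded_above_of_compact_support (hF i).2
    exact ⟨C, fun x => by simpa [Real.norm_eq_abs] using hC x⟩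
  choose C hC using h1
  have hsub : {s : ℝ | 0 < s ∧ ¬ Equidistributed μ fun n : ℕ => u (s * (n : ℝ) ^ β) • x}
      ⊆ ⋃ i : ℕ, {s : ℝ | 0 < s ∧ ¬ Tendsto (fun N : ℕ =>
      (∑ n ∈ Finset.range N, F i (u (s * (n : ℝ) ^ β) • x)) / (N : ℝ))
        atTop (𝓝 (∫ p, F i p ∂μ))} := by
    rintro s ⟨h2, h4⟩
    rw [Set.mem_iUnion]
    by_contra hcon
    push Not at hcon
    apply h4
    refine equidistributed_of_family hF hd fun i => ?_
    rw [cesaro_shift (z := fun n : ℕ => F i (u (s * (n : ℝ) ^ β) • x)) (fun n => hC i _)]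
    by_contra h5
    exact hcon i ⟨h2, h5⟩
  refine (dimH_mono hsub).trans ?_
  rw [dimH_iUnion]
  apply iSup_le
  intro i
  refine dim_speed_flow (z := fun t => F i (u t • x)) ((hF i).1.comp (huc.smul continuous_const))
    (fun t => hC i _) ?_ (hx (F i) (hF i).1 (hF i).2) hβ hb
  intro ε hε
  obtain ⟨δ, hδ, h2⟩ := unif_flow huc hu (hF i).1 (hF i).2 hε
  refine ⟨δ, hδ, fun t t' ht => ?_⟩
  have h3 := h2 (t - t') ht (u t' • x)
  rwa [smul_smul, ← hu, sub_add_cancel] at h3

omit [LocallyCompactSpace X] [T2Space X] [SecondCountableTopology X]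
  [IsProbabilityMeasure μ] in
/-- translation by an element which preserves the measure -/
theorem equidistributed_smul {g : G} (hg : μ.map (fun p => g • p) = μ) {y : ℕ → X}
    (hy : Equidistributed μ y) : Equidistributed μ fun n => g • y n := by
  intro f hf hfc
  have h1 := hy (fun p => f (g • p)) (hf.comp (continuous_const_smul g))
    (hfc.comp_homeomorph (Homeomorph.smul g))
  have h2 : ∫ p, f (g • p) ∂μ = ∫ p, f p ∂μ := by
    conv_rhs => rw [← hg]
    rw [integral_map (continuous_const_smul g).measurable.aemeasurable]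
    rw [hg]
    exact hf.aestronglyMeasurable
  rw [h2] at h1
  exact h1

/-- **Dimension bound on the orbits of the expanding group.** -/
theorem equidistributed_orbit {u : ℝ → G} (huc : Continuous u)
    (hu : ∀ s t, u (s + t) = u s * u t) {x : X}
    (hx : RealEquidistributed μ fun t => u t • x) {b : ℕ} {β : ℝ} (hβ : 1 ≤ β) (hb : β ≤ b)
    {a : ℝ → G} (ha : ∀ r t, a r * u t * (a r)⁻¹ = u (exp r * t))
    (hμ : ∀ r, μ.map (fun p => a r • p) = μ) :
    dimH {r : ℝ | ¬ Equidistributed μ fun n : ℕ => u ((n : ℝ) ^ β) • a r • x} ≤ sgN b := by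
  set S : Set ℝ := {s : ℝ | 0 < s ∧ ¬ Equidistributed μ fun n : ℕ => u (s * (n : ℝ) ^ β) • x}
    with hS
  have h1 : dimH S ≤ sgN b := equidistributed_speed huc hu hx hβ hb
  have h2 : dimH ((fun s : ℝ => -log s) '' S) ≤ dimH S := by
    apply ContDiffOn.dimH_image_le (s := Set.Ioi (0 : ℝ)) (f := fun s : ℝ => -log s) _
      (convex_Ioi 0) (fun s hs => hs.1)
    exact (Real.contDiffOn_log.mono fun s hs => ne_of_gt hs).neg
  refine (dimH_mono ?_).trans (h2.trans h1)
  intro r hr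
  refine ⟨exp (-r), ⟨exp_pos _, fun h3 => hr ?_⟩, by simp⟩
  have h4 := equidistributed_smul (hμ r) h3
  refine (congrArg (Equidistributed μ) (funext fun n => ?_)).mp h4
  have h5 : u ((n : ℝ) ^ β) * a r = a r * u (exp (-r) * (n : ℝ) ^ β) := by
    have h6 := ha r (exp (-r) * (n : ℝ) ^ β)
    rw [← mul_assoc, ← exp_add, add_neg_cancel, exp_zero, one_mul] at h6
    rw [← h6, inv_mul_cancel_right]
  rw [smul_smul, smul_smul, h5]

end Action

/-- **Homogeneous spaces.** -/
theorem homogeneous_speed {β : ℝ} (hβ : 1 ≤ β) : ∃ σ : ℝ≥0, σ < 1 ∧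
    ∀ {G : Type*} [Group G] [TopologicalSpace G] [IsTopologicalGroup G] [T2Space G]
      [LocallyCompactSpace G] (Γ : Subgroup G) [DiscreteTopology Γ]
      [SecondCountableTopology (G ⧸ Γ)] [MeasurableSpace (G ⧸ Γ)] [BorelSpace (G ⧸ Γ)]
      (μ : Measure (G ⧸ Γ)) [IsProbabilityMeasure μ] (u : ℝ → G) (x : G ⧸ Γ),
      Continuous u → (∀ s t, u (s + t) = u s * u t) →
      (RealEquidistributed μ fun t : ℝ => u t • x) →
      dimH {s : ℝ | 0 < s ∧ ¬ Equidistributed μ fun n : ℕ => u (s * (n : ℝ) ^ β) • x} ≤ σ ∧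
      ∀ a : ℝ → G, (∀ r t, a r * u t * (a r)⁻¹ = u (exp r * t)) →
        (∀ r, μ.map (fun p => a r • p) = μ) →
        dimH {r : ℝ | ¬ Equidistributed μ fun n : ℕ => u ((n : ℝ) ^ β) • a r • x} ≤ σ := by
  refine ⟨sgN ⌈β⌉₊, sgN_lt_one _, ?_⟩
  intro G _ _ _ _ _ Γ _ _ _ _ μ _ u x huc hu hx
  have hcl : IsClosed (Γ : Set G) := Subgroup.isClosed_of_discrete
  exact ⟨equidistributed_speed huc hu hx hβ (Nat.le_ceil β),
    fun a ha hμ => equidistributed_orbit huc hu hx hβ (Nat.le_ceil β) ha hμ⟩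

end MargS
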