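import Pool.Agent.MargS.Point

/-!
# Hausdorff dimension of the exceptional set of speeds, for bounded sequences
-/

open Finset Real MeasureTheory Filter Topology Marg
open scoped ENNReal NNReal

namespace MargS

/-- **Dimension bound for bounded sequences.** -/
theorem dim_speed {z : ℕ → ℝ} {C : ℝ} (hz : ∀ n, |z n| ≤ C) {L : ℝ}
    (hc : Tendsto (fun n : ℕ => (∑ k ∈ range n, z k) / (n : ℝ)) atTop (𝓝 L)) {b : ℕ} {β : ℝ}
    (hβ : 1 ≤ β) (hb : β ≤ b) :
    dimH {s : ℝ | 0 < s ∧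
      ¬ Tendsto (fun n : ℕ => (∑ k ∈ range n, z ⌊s * (k : ℝ) ^ β⌋₊) / (n : ℝ)) atTop (𝓝 L)}
      ≤ sgN b := by
  set B : ℝ := C + |L| + 1 with hB
  have hC : 0 ≤ C := (abs_nonneg _).trans (hz 0)
  have hB0 : 0 < B := by positivity
  set y : ℕ → ℝ := fun n => (z n - L) / B with hy
  have hyb : ∀ n, |y n| ≤ 1 := by
    intro n
    simp only [hy]
    rw [abs_div, abs_of_pos hB0, div_le_one hB0]
    refine (abs_sub _ _).trans ?_
    linarith [hz n]
  have key : ∀ w : ℕ → ℕ, ∀ n : ℕ, 0 < n → (∑ k ∈ range n, y (w k)) / (n : ℝ)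
      = ((∑ k ∈ range n, z (w k)) / (n : ℝ) - L) / B := by
    intro w n hn
    have hn' : (n : ℝ) ≠ 0 := by positivity
    simp only [hy]
    rw [← Finset.sum_div, Finset.sum_sub_distrib, Finset.sum_const, card_range, nsmul_eq_mul]
    field_simp
  have hyc : Tendsto (fun n : ℕ => (∑ k ∈ range n, y k) / (n : ℝ)) atTop (𝓝 0) := by
    have h1 : Tendsto (fun n : ℕ => ((∑ k ∈ range n, z k) / (n : ℝ) - L) / B) atTop (𝓝 0) := by
      have := (hc.sub_const L).div_const B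
      simpa using this
    refine h1.congr' ?_
    filter_upwards [eventually_gt_atTop 0] with n hn
    exact (key id n hn).symm
  set S : ℤ → Set ℝ := fun c =>
    {u | 0 ≤ u ∧ u ≤ 1 ∧ ¬ Tendsto (fun M : ℕ => RM y b β c M u) atTop (𝓝 0)} with hS
  have hdS : ∀ c, dimH (S c) ≤ sgN b := fun c =>
    dimH_le_of_hcont (σ := sgN b) (hσ := sg_pos b) (hcont_RM_zero hyb hβ hb c)
  have himg : ∀ c : ℤ, dimH ((fun u : ℝ => exp (u + c)) '' S c) ≤ dimH (S c) := by
    intro c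
    apply ContDiffOn.dimH_image_le (s := Set.univ) (f := fun u : ℝ => exp (u + c)) _ convex_univ
      (Set.subset_univ _)
    exact (Real.contDiff_exp.comp (contDiff_id.add contDiff_const)).contDiffOn
  have hsub : {s : ℝ | 0 < s ∧
      ¬ Tendsto (fun n : ℕ => (∑ k ∈ range n, z ⌊s * (k : ℝ) ^ β⌋₊) / (n : ℝ)) atTop (𝓝 L)}
      ⊆ ⋃ c : ℤ, (fun u : ℝ => exp (u + c)) '' S c := by
    rintro s ⟨h1, h3⟩
    rw [Set.mem_iUnion]
    have e1 : log s - (⌊log s⌋ : ℤ) + (⌊log s⌋ : ℤ) = log s := by ring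
    have g1 : (0 : ℝ) ≤ log s - (⌊log s⌋ : ℤ) := by linarith [Int.floor_le (log s)]
    have g2 : log s - (⌊log s⌋ : ℤ) ≤ 1 := by linarith [Int.lt_floor_add_one (log s)]
    refine ⟨⌊log s⌋, log s - (⌊log s⌋ : ℤ), ⟨g1, g2, ?_⟩, ?_⟩
    · intro hT
      apply h3
      have h4 := conv_of_RM hyb hyc hβ g1 g2 hT
      rw [e1, Real.exp_log h1] at h4
      have h5 : Tendsto (fun n : ℕ => B * ((∑ k ∈ range n, y ⌊s * (k : ℝ) ^ β⌋₊) / (n : ℝ)) + L)
          atTop (𝓝 L) := by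
        have := (h4.const_mul B).add_const L
        simpa using this
      refine h5.congr' ?_
      filter_upwards [eventually_gt_atTop 0] with n hn
      rw [key (fun k => ⌊s * (k : ℝ) ^ β⌋₊) n hn]
      field_simp
      ring
    · simp only
      rw [e1, Real.exp_log h1]
  refine (dimH_mono hsub).trans ?_
  rw [dimH_iUnion]
  exact iSup_le fun c => (himg c).trans (hdS c)

end MargS
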