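import Pool.Agent.MargS.Seq

/-!
# Hausdorff dimension of the exceptional set of dilations of the times `⌊s n ^ β⌋`
-/

open Finset Real MeasureTheory Filter Topology Marg
open scoped ENNReal NNReal

namespace MargS

/-- **Dimension bound for the dilations of the times.** -/
theorem equidistributed_dil {X : Type*} [TopologicalSpace X] [LocallyCompactSpace X] [T2Space X]
    [SecondCountableTopology X] [MeasurableSpace X] [BorelSpace X] {μ : Measure X}
    [IsProbabilityMeasure μ] {y : ℕ → X} (hy : Equidistributed μ y) {b : ℕ} {β : ℝ}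
    (hβ : 1 ≤ β) (hb : β ≤ b) :
    dimH {s : ℝ | 0 < s ∧ ¬ Equidistributed μ (fun n => y ⌊s * (n : ℝ) ^ β⌋₊)} ≤ sgN b := by
  obtain ⟨F, hF, hd⟩ := exists_dense_family X
  have h1 : ∀ i, ∃ C : ℝ, ∀ x, |F i x| ≤ C := by
    intro i
    obtain ⟨C, hC⟩ := (hF i).1.bounded_above_of_compact_support (hF i).2
    exact ⟨C, fun x => by simpa [Real.norm_eq_abs] using hC x⟩
  choose C hC using h1
  have hsub : {s : ℝ | 0 < s ∧ ¬ Equidistributed μ (fun n => y ⌊s * (n : ℝ) ^ β⌋₊)}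
      ⊆ ⋃ i : ℕ, {s : ℝ | 0 < s ∧ ¬ Tendsto (fun N : ℕ =>
      (∑ n ∈ Finset.range N, F i (y ⌊s * (n : ℝ) ^ β⌋₊)) / (N : ℝ)) atTop (𝓝 (∫ p, F i p ∂μ))} := by
    rintro s ⟨h2, h4⟩
    rw [Set.mem_iUnion]
    by_contra hcon
    push Not at hcon
    apply h4
    refine equidistributed_of_family hF hd fun i => ?_
    rw [cesaro_shift (z := fun n => F i (y ⌊s * (n : ℝ) ^ β⌋₊)) (fun n => hC i _)]
    by_contra h5
    exact hcon i ⟨h2, h5⟩
  refine (dimH_mono hsub).trans ?_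
  rw [dimH_iUnion]
  apply iSup_le
  intro i
  have h3 := (cesaro_shift (z := fun n => F i (y n)) (fun n => hC i _)).1
    (hy (F i) (hF i).1 (hF i).2)
  exact dim_speed (z := fun n => F i (y n)) (fun n => hC i _) h3 hβ hb

/-- **Dimension bound for orbits in homogeneous spaces.** -/
theorem homogeneous_dil {α : ℝ} (hα : 1 ≤ α) : ∃ σ : ℝ≥0, σ < 1 ∧
    ∀ {G : Type*} [Group G] [TopologicalSpace G] [IsTopologicalGroup G] [T2Space G]
      [LocallyCompactSpace G] (Γ : Subgroup G) [DiscreteTopology Γ]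
      [SecondCountableTopology (G ⧸ Γ)] [MeasurableSpace (G ⧸ Γ)] [BorelSpace (G ⧸ Γ)]
      (μ : Measure (G ⧸ Γ)) [IsProbabilityMeasure μ] (u : ℝ → G) (x : G ⧸ Γ),
      (Equidistributed μ fun n : ℕ => u (n : ℝ) • x) →
      dimH {s : ℝ | 0 < s ∧
        ¬ Equidistributed μ fun n : ℕ => u ((⌊s * (n : ℝ) ^ α⌋ : ℤ) : ℝ) • x} ≤ σ := by
  refine ⟨sgN ⌈α⌉₊, sgN_lt_one _, ?_⟩
  intro G _ _ _ _ _ Γ _ _ _ _ μ _ u x hx
  have hcl : IsClosed (Γ : Set G) := Subgroup.isClosed_of_discrete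
  refine (dimH_mono ?_).trans (equidistributed_dil hx hα (Nat.le_ceil α))
  rintro s ⟨h1, h3⟩
  refine ⟨h1, ?_⟩
  intro h4
  apply h3
  refine (congrArg (Equidistributed μ) (funext fun n => ?_)).mp h4
  congr 2
  exact natCast_floor_eq_intCast_floor (by positivity)

end MargS
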