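import Pool.Agent.MargS.Step
import Pool.Agent.Marg.Dim

/-!
# High and low frequency parts of the averages of `z ⌊s n ^ β⌋`, `s = exp (u + c)`
-/

open Finset Real MeasureTheory Filter Topology Marg
open scoped InnerProductSpace ENNReal NNReal

namespace MargS

variable {z : ℕ → ℝ}

/-- `β log x + c` -/
noncomputable def lc (β c x : ℝ) : ℝ := bl β x + c

lemma famB_lc {β : ℝ} (hβ : 1 ≤ β) (c : ℝ) :
    FamB (lc β c) (DL β) 3 (fun j => β * (j.factorial : ℝ)) := by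
  have h := famB_log hβ
  exact { deriv0 := fun x hx => (h.deriv0 x hx).add_const c
          deriv := h.deriv
          pos := h.pos
          one_le := h.one_le
          upper := h.upper
          lower := h.lower }

lemma lc_mono {β : ℝ} (hβ : 1 ≤ β) (c : ℝ) {x y : ℝ} (hx : 3 ≤ x) (hxy : x ≤ y) :
    lc β c x ≤ lc β c y := by
  have h1 : log x ≤ log y := Real.log_le_log (by linarith) hxy
  unfold lc bl
  nlinarith

lemma lc_two_mul {β : ℝ} {b : ℕ} (hβ : 1 ≤ β) (hb : β ≤ b) (c : ℝ) {N : ℝ} (hN : 3 ≤ N) :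
    lc β c (2 * N) - lc β c N ≤ b := by
  have h1 : log (2 * N) = log 2 + log N := Real.log_mul (by norm_num) (by linarith)
  have h2 : log 2 ≤ 1 := by linarith [Real.log_two_lt_d9]
  have h3 : (0 : ℝ) ≤ log 2 := Real.log_nonneg (by norm_num)
  unfold lc bl
  rw [h1]
  nlinarith

lemma lc_exp {β c u x : ℝ} (hx : 0 < x) : exp (u + lc β c x) = exp (u + c) * x ^ β := by
  unfold lc bl
  rw [Real.rpow_def_of_pos hx, ← Real.exp_add]
  congr 1
  ring

/-- the truncated function at stage `M` -/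
noncomputable def fM (z : ℕ → ℝ) (b : ℕ) (β c : ℝ) (M : ℕ) : ℝ → ℝ :=
  ft z (lc β c ((M ^ De (b + 1) : ℕ) : ℝ) - 1) (1 + lc β c (2 * ((M ^ De (b + 1) : ℕ) : ℝ)))

/-- high frequency part of the average -/
noncomputable def RM (z : ℕ → ℝ) (b : ℕ) (β c : ℝ) (M : ℕ) (u : ℝ) : ℝ :=
  (∑ i ∈ range (M ^ De (b + 1)),
    (fM z b β c M (u + lc β c ((M ^ De (b + 1) + i : ℕ) : ℝ))
      - sm (fM z b β c M) (sc (b + 1) M 0) (u + lc β c ((M ^ De (b + 1) + i : ℕ) : ℝ))))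
    / ((M ^ De (b + 1) : ℕ) : ℝ)

/-- smoothed high frequency part of the average -/
noncomputable def GM (z : ℕ → ℝ) (b : ℕ) (β c : ℝ) (M : ℕ) (u : ℝ) : ℝ :=
  (∑ i ∈ range (M ^ De (b + 1)),
    band (fM z b β c M) (sc (b + 1) M (b + 1)) (sc (b + 1) M 0)
      (u + lc β c ((M ^ De (b + 1) + i : ℕ) : ℝ)))
    / ((M ^ De (b + 1) : ℕ) : ℝ)

/-- rough part of the sum -/
noncomputable def AM (z : ℕ → ℝ) (b : ℕ) (β c : ℝ) (M : ℕ) (u : ℝ) : ℝ :=
  ∑ i ∈ range (M ^ De (b + 1)), rem0 z (lc β c ((M ^ De (b + 1) : ℕ) : ℝ) - 1)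
    (1 + lc β c (2 * ((M ^ De (b + 1) : ℕ) : ℝ))) (sc (b + 1) M (b + 1))
    (u + lc β c ((M ^ De (b + 1) + i : ℕ) : ℝ))

lemma RM_eq (b : ℕ) (β c : ℝ) (M : ℕ) (u : ℝ) :
    RM z b β c M u = GM z b β c M u + AM z b β c M u / ((M ^ De (b + 1) : ℕ) : ℝ) := by
  unfold RM GM AM
  rw [← add_div, ← Finset.sum_add_distrib]
  congr 1
  refine Finset.sum_congr rfl fun i _ => ?_
  unfold rem0 band fM
  ring

lemma GM_lip (hz : ∀ n, |z n| ≤ 1) {b : ℕ} {β c : ℝ} {M : ℕ} (hM : 1 ≤ M) (x y : ℝ) :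
    |GM z b β c M x - GM z b β c M y| ≤ 4 / sc (b + 1) M (b + 1) * |x - y| := by
  have hBf : Bdd (fM z b β c M) := ft_bdd hz _ _
  have hs' := sc_pos hM (b + 1) (Q := b + 1)
  have hss : ∀ q : ℕ, sc (b + 1) M q ≤ sc (b + 1) M 0 := by
    intro q
    induction q with
    | zero => exact le_rfl
    | succ q ih => exact (sc_succ_le hM q).trans ih
  have hN : (0 : ℝ) < ((M ^ De (b + 1) : ℕ) : ℝ) := by
    have : 0 < M ^ De (b + 1) := by positivity
    exact_mod_cast this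
  unfold GM
  rw [← sub_div, ← Finset.sum_sub_distrib, abs_div, abs_of_pos hN, div_le_iff₀ hN]
  calc _ ≤ ∑ i ∈ range (M ^ De (b + 1)), _ := Finset.abs_sum_le_sum_abs _ _
    _ ≤ ∑ _i ∈ range (M ^ De (b + 1)), 4 / sc (b + 1) M (b + 1) * |x - y| := by
        refine Finset.sum_le_sum fun i _ => ?_
        have := hBf.band_lip hs' (hss (b + 1)) (x + lc β c ((M ^ De (b + 1) + i : ℕ) : ℝ))
          (y + lc β c ((M ^ De (b + 1) + i : ℕ) : ℝ))
        rwa [add_sub_add_right_eq_sub] at this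
    _ = 4 / sc (b + 1) M (b + 1) * |x - y| * ((M ^ De (b + 1) : ℕ) : ℝ) := by
        rw [Finset.sum_const, card_range, nsmul_eq_mul]; ring

theorem l2_bound_G {b : ℕ} {β : ℝ} (hβ : 1 ≤ β) (hb : β ≤ b) (c : ℝ) :
    ∃ K : ℝ, 0 ≤ K ∧ ∀ᶠ M : ℕ in atTop, ∀ z : ℕ → ℝ, (∀ n, |z n| ≤ 1) →
      Integrable (fun u => GM z b β c M u ^ 2) ∧
        ∫ u, GM z b β c M u ^ 2 ≤ K / (M : ℝ) ^ 2 := by
  set Q := b + 1 with hQ
  set LL : ℝ := b + 2 with hLL
  obtain ⟨K, hK0, hK⟩ := band_bound (famB_lc hβ c) Q LL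
  refine ⟨Q * (Q * K ^ 2), by positivity, ?_⟩
  filter_upwards [hK, eventually_ge_atTop 3] with M hKM hM3 z hz
  have hM1 : 1 ≤ M := by omega
  have hμ3 : (3 : ℝ) ≤ M := by exact_mod_cast hM3
  have hμ : (1 : ℝ) ≤ M := by linarith
  set N : ℕ := M ^ De Q with hN
  have hNr : ((N : ℕ) : ℝ) = (M : ℝ) ^ De Q := by rw [hN]; push_cast; rfl
  have hMN : (M : ℝ) ≤ (N : ℝ) := by
    rw [hNr]
    exact le_self_pow₀ hμ (by unfold De; omega)
  have hN3 : (3 : ℝ) ≤ N := hμ3.trans hMN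
  set v0 : ℝ := lc β c (N : ℝ) - 1 with hv0
  set v1 : ℝ := 1 + lc β c (2 * (N : ℝ)) with hv1
  have hf : fM z b β c M = ft z v0 v1 := rfl
  have hll1 : lc β c (N : ℝ) ≤ lc β c (2 * (N : ℝ)) := lc_mono hβ c hN3 (by linarith)
  have hv01 : v0 ≤ v1 := by linarith
  have hvLL : v1 - v0 ≤ LL := by
    have := lc_two_mul hβ hb c hN3
    linarith
  have hBf : Bdd (ft z v0 v1) := ft_bdd hz v0 v1
  set t : ℕ → ℝ := fun i => lc β c ((N + i : ℕ) : ℝ) with ht
  have hcptB : ∀ q, Cpt (band (ft z v0 v1) (sc Q M (q + 1)) (sc Q M q)) v0 (v1 + sc Q M q) 2 :=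
    fun q => hBf.band_cpt (sc_pos hM1 _) (sc_succ_le hM1 q) (ft_supp v0 v1)
  -- sums
  set B : ℕ → ℝ → ℝ := fun q u => ∑ i ∈ range N,
    band (ft z v0 v1) (sc Q M (q + 1)) (sc Q M q) (u + t i) with hB
  have hdecomp : ∀ u, GM z b β c M u = (∑ q ∈ range Q, B q u) / N := by
    intro u
    unfold GM
    rw [hf]
    congr 1
    simp only [hB]
    rw [Finset.sum_comm]
    refine Finset.sum_congr rfl fun i _ => ?_
    unfold band
    rw [Finset.sum_range_sub (fun q => sm (ft z v0 v1) (sc Q M q) (u + t i))]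
  have hN0 : (0 : ℝ) < N := by linarith
  have hBint : ∀ q, Integrable (fun u => B q u ^ 2) := fun q =>
    (hcptB q).integrable_sq_sum (range N) t
  have hB2 : ∀ q ∈ range Q, ∫ u, B q u ^ 2 ≤ (N : ℝ) ^ 2 * (K ^ 2 / (M : ℝ) ^ 2) := by
    intro q hq
    have h1 := (hcptB q).norm_sum_sq (range N) t
    have h2 := hKM (ft z v0 v1) hBf v0 v1 hv01 hvLL (ft_supp v0 v1) q
      (by have := mem_range.1 hq; omega) (hcptB q)
    calc ∫ u, B q u ^ 2 = ‖∑ i ∈ range N, (hcptB q).φ (t i)‖ ^ 2 := h1.symm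
      _ ≤ (K * (N : ℝ) / M) ^ 2 := by gcongr
      _ = (N : ℝ) ^ 2 * (K ^ 2 / (M : ℝ) ^ 2) := by ring
  -- pointwise inequality
  have hpt : ∀ u, GM z b β c M u ^ 2 ≤ (Q / (N : ℝ) ^ 2) * ∑ q ∈ range Q, B q u ^ 2 := by
    intro u
    rw [hdecomp u, div_pow, div_mul_eq_mul_div]
    gcongr
    have h1 := sq_sum_le_card_mul_sum_sq (s := range Q) (f := fun q => B q u)
    rwa [card_range] at h1
  have hRint : Integrable (fun u => (Q / (N : ℝ) ^ 2) * ∑ q ∈ range Q, B q u ^ 2) := by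
    apply Integrable.const_mul
    exact integrable_finsetSum _ fun q _ => hBint q
  have hGmeas : Measurable (GM z b β c M) := by
    have e : GM z b β c M = fun u => (∑ q ∈ range Q, B q u) / N := funext hdecomp
    rw [e]
    apply Measurable.div_const
    exact Finset.measurable_sum _ fun q _ => Finset.measurable_sum _ fun i _ =>
        (hcptB q).meas.comp (measurable_id.add_const _)
  refine ⟨?_, ?_⟩
  · apply hRint.mono' (hGmeas.pow_const 2).aestronglyMeasurable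
    refine Eventually.of_forall fun u => ?_
    rw [Real.norm_eq_abs, abs_of_nonneg (sq_nonneg _)]
    exact hpt u
  · calc ∫ u, GM z b β c M u ^ 2
        ≤ ∫ u, (Q / (N : ℝ) ^ 2) * ∑ q ∈ range Q, B q u ^ 2 := by
          apply integral_mono_of_nonneg (Eventually.of_forall fun u => sq_nonneg _) hRint
          exact Eventually.of_forall hpt
      _ = (Q / (N : ℝ) ^ 2) * ∑ q ∈ range Q, ∫ u, B q u ^ 2 := by
          rw [integral_const_mul, integral_finsetSum _ fun q _ => hBint q]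
      _ ≤ (Q / (N : ℝ) ^ 2) * ∑ _q ∈ range Q, (N : ℝ) ^ 2 * (K ^ 2 / (M : ℝ) ^ 2) := by
          have := Finset.sum_le_sum hB2
          gcongr
      _ = Q * (Q * K ^ 2) / (M : ℝ) ^ 2 := by
          rw [Finset.sum_const, card_range, nsmul_eq_mul]
          field_simp

/-- Content of the exceptional set of the smoothing. -/
theorem hcont_badset {σ : ℝ} {hσ : 0 < σ} {z : ℕ → ℝ} (hz : ∀ n, |z n| ≤ 1) {v0 v1 s : ℝ}
    (hs : 0 < s) {K N : ℕ} (hK : Real.exp v1 ≤ K) (t : ℕ → ℝ) :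
    hcont σ hσ {u | ∑ i ∈ Finset.range N, rem0 z v0 v1 s (u + t i) ≠ 0}
      ≤ ENNReal.ofReal (N * (K + 3) * s ^ σ) := by
  have hsub : {u | ∑ i ∈ Finset.range N, rem0 z v0 v1 s (u + t i) ≠ 0} ⊆
      ⋃ i ∈ Finset.range N,
        ((⋃ k ∈ Finset.range (K + 1), Set.Icc (log k - t i) (log k - t i + s)) ∪
        (Set.Icc (v0 - t i) (v0 - t i + s) ∪ Set.Icc (v1 - t i) (v1 - t i + s))) := by
    intro u hu
    by_contra hcon
    apply hu
    apply Finset.sum_eq_zero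
    intro i hi
    rw [Set.mem_iUnion₂] at hcon
    push Not at hcon
    have h1 := hcon i hi
    have h2 : u + t i ∉ badset v0 v1 s K := by
      intro hbad
      apply h1
      unfold badset at hbad
      rcases hbad with hb | hb | hb
      · left
        rw [Set.mem_iUnion₂] at hb ⊢
        obtain ⟨k, hk, hk1, hk2⟩ := hb
        exact ⟨k, hk, by linarith, by linarith⟩
      · right; left
        exact ⟨by linarith [hb.1], by linarith [hb.2]⟩
      · right; right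
        exact ⟨by linarith [hb.1], by linarith [hb.2]⟩
    unfold rem0
    rw [sm_eq_of_notMem_badset hz hs hK h2]
    ring
  have hone : ∀ x : ℝ, hcont σ hσ (Set.Icc x (x + s)) ≤ ENNReal.ofReal (s ^ σ) := by
    intro x
    refine (hcont_Icc_le x).trans (le_of_eq ?_)
    rw [ENNReal.ofReal_rpow_of_pos hs]
  refine (measure_mono hsub).trans ((measure_biUnion_finset_le _ _).trans ?_)
  calc ∑ i ∈ Finset.range N, hcont σ hσ
        ((⋃ k ∈ Finset.range (K + 1), Set.Icc (log k - t i) (log k - t i + s)) ∪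
        (Set.Icc (v0 - t i) (v0 - t i + s) ∪ Set.Icc (v1 - t i) (v1 - t i + s)))
      ≤ ∑ _i ∈ Finset.range N, ENNReal.ofReal ((K + 3) * s ^ σ) := by
        refine Finset.sum_le_sum fun i _ => ?_
        have hsσ : 0 ≤ s ^ σ := by positivity
        have h1 : hcont σ hσ (⋃ k ∈ Finset.range (K + 1), Set.Icc (log k - t i) (log k - t i + s))
            ≤ ENNReal.ofReal ((K + 1) * s ^ σ) := by
          refine (measure_biUnion_finset_le _ _).trans ?_
          refine (Finset.sum_le_sum fun k _ => hone _).trans (le_of_eq ?_)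
          rw [Finset.sum_const, Finset.card_range, nsmul_eq_mul,
            ENNReal.ofReal_mul (by positivity)]
          congr 1
          rw [← ENNReal.ofReal_natCast]
          push_cast
          rfl
        refine (measure_union_le _ _).trans ?_
        refine (add_le_add h1 ((measure_union_le _ _).trans (add_le_add (hone _) (hone _)))).trans ?_
        rw [← ENNReal.ofReal_add hsσ hsσ, ← ENNReal.ofReal_add (by positivity) (by positivity)]
        apply ENNReal.ofReal_le_ofReal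
        apply le_of_eq
        ring
    _ = ENNReal.ofReal (N * (K + 3) * s ^ σ) := by
        rw [Finset.sum_const, Finset.card_range, nsmul_eq_mul, mul_assoc,
          ENNReal.ofReal_mul (p := (N : ℝ)) (by positivity), ENNReal.ofReal_natCast]

theorem hcont_RM {b : ℕ} {β : ℝ} (hβ : 1 ≤ β) (hb : β ≤ b) (c : ℝ) {ε : ℝ} (hε : 0 < ε) :
    ∃ C : ℝ, 0 ≤ C ∧ ∀ᶠ M : ℕ in atTop, ∀ z : ℕ → ℝ, (∀ n, |z n| ≤ 1) →
      hcont (sg b) (sg_pos b) {u | 0 ≤ u ∧ u ≤ 1 ∧ ε < |RM z b β c M u|}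
        ≤ ENNReal.ofReal (C * (M : ℝ) ^ (-(3 / 2) : ℝ)) := by
  obtain ⟨K, hK0, hK⟩ := l2_bound_G hβ hb c
  obtain ⟨cc, hcc⟩ := exists_nat_ge (exp (1 + c))
  refine ⟨4 * K / ε ^ 2 * (ε / 8) ^ (sg b - 1) + (cc * 2 ^ b + 3), by positivity, ?_⟩
  filter_upwards [hK, eventually_ge_atTop 3] with M hKM hM3 z hz
  have hM1 : 1 ≤ M := by omega
  have hμ3 : (3 : ℝ) ≤ M := by exact_mod_cast hM3
  have hμ : (1 : ℝ) ≤ M := by linarith
  have hμ0 : (0 : ℝ) < M := by linarith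
  obtain ⟨hGi, hGI⟩ := hKM z hz
  have hs := sc_pos hM1 (b + 1) (Q := b + 1)
  have hscr := sc_rpow (b := b) hM1
  set s := sc (b + 1) M (b + 1) with hsdef
  have hexp : (M : ℝ) ^ (-(3 / 2) : ℝ) = (M : ℝ) ^ ((1 : ℝ) / 2) / (M : ℝ) ^ 2 := by
    rw [← Real.rpow_natCast, ← Real.rpow_sub hμ0]
    norm_num
  -- part one
  have h1 : hcont (sg b) (sg_pos b) {u | 0 ≤ u ∧ u ≤ 1 ∧ ε < |GM z b β c M u|}
      ≤ ENNReal.ofReal ((4 * K / ε ^ 2 * (ε / 8) ^ (sg b - 1)) * (M : ℝ) ^ (-(3 / 2) : ℝ)) := by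
    refine (hcont_superlevel (h := ε * s / 8) (Lc := 4 / s) (by positivity) hε (by positivity)
      (GM_lip hz hM1) hGi hGI ?_).trans ?_
    · apply le_of_eq
      field_simp
      norm_num
    · apply ENNReal.ofReal_le_ofReal
      have e1 : ε * s / 8 = (ε / 8) * s := by ring
      rw [e1, Real.mul_rpow (by positivity) hs.le, hexp]
      calc 4 * (K / (M : ℝ) ^ 2) / ε ^ 2 * ((ε / 8) ^ (sg b - 1) * s ^ (sg b - 1))
          ≤ 4 * (K / (M : ℝ) ^ 2) / ε ^ 2 * ((ε / 8) ^ (sg b - 1) * (M : ℝ) ^ ((1 : ℝ) / 2)) := by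
            gcongr
        _ = _ := by ring
  -- part two
  set N : ℕ := M ^ De (b + 1) with hN
  have hNr : ((N : ℕ) : ℝ) = (M : ℝ) ^ De (b + 1) := by rw [hN]; push_cast; rfl
  have hMN : (M : ℝ) ≤ (N : ℝ) := by
    rw [hNr]
    exact le_self_pow₀ hμ (by unfold De; omega)
  have hN3 : (3 : ℝ) ≤ N := hμ3.trans hMN
  have hN0 : (0 : ℝ) < N := by linarith
  set v1 : ℝ := 1 + lc β c (2 * (N : ℝ)) with hv1
  have hKexp : exp v1 ≤ ((cc * (2 * N) ^ b : ℕ) : ℝ) := by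
    have h20 : (0 : ℝ) < 2 * N := by linarith
    rw [hv1, lc_exp h20]
    push_cast
    have h21 : (2 * (N : ℝ)) ^ β ≤ (2 * (N : ℝ)) ^ b := by
      rw [← Real.rpow_natCast]
      exact Real.rpow_le_rpow_of_exponent_le (by linarith) hb
    gcongr
  have h2 : hcont (sg b) (sg_pos b) {u | AM z b β c M u ≠ 0}
      ≤ ENNReal.ofReal ((cc * 2 ^ b + 3) * (M : ℝ) ^ (-(3 / 2) : ℝ)) := by
    refine (hcont_badset hz hs hKexp (fun i => lc β c ((N + i : ℕ) : ℝ))).trans ?_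
    apply ENNReal.ofReal_le_ofReal
    have e1 : s ^ sg b = s * s ^ (sg b - 1) := by
      rw [Real.rpow_sub_one hs.ne']; field_simp
    have h6 : ((cc * (2 * N) ^ b : ℕ) : ℝ) + 3 ≤ (cc * 2 ^ b + 3) * (N : ℝ) ^ b := by
      push_cast
      rw [mul_pow]
      have : (1 : ℝ) ≤ (N : ℝ) ^ b := one_le_pow₀ (by linarith)
      nlinarith
    have h7 : s = (M : ℝ) ^ th (b + 1) (b + 1) / (N : ℝ) ^ (b + 2) := by
      rw [hsdef]; unfold sc; rw [hNr]
    have h8 : (M : ℝ) ^ th (b + 1) (b + 1) * (M : ℝ) ^ 2 ≤ N := by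
      rw [hNr, ← pow_add]
      apply pow_le_pow_right₀ hμ
      unfold De
      omega
    rw [e1, hexp]
    calc (N : ℝ) * (((cc * (2 * N) ^ b : ℕ) : ℝ) + 3) * (s * s ^ (sg b - 1))
        ≤ N * ((cc * 2 ^ b + 3) * (N : ℝ) ^ b) * (s * (M : ℝ) ^ ((1 : ℝ) / 2)) := by gcongr
      _ = (cc * 2 ^ b + 3) * ((M : ℝ) ^ th (b + 1) (b + 1) / N) * (M : ℝ) ^ ((1 : ℝ) / 2) := by
          rw [h7, pow_add]; field_simp
      _ ≤ (cc * 2 ^ b + 3) * (1 / (M : ℝ) ^ 2) * (M : ℝ) ^ ((1 : ℝ) / 2) := by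
          gcongr (cc * 2 ^ b + 3) * ?_ * _
          rw [div_le_div_iff₀ hN0 (by positivity), one_mul]
          exact h8
      _ = (cc * 2 ^ b + 3) * ((M : ℝ) ^ ((1 : ℝ) / 2) / (M : ℝ) ^ 2) := by ring
  have hsub : {u | 0 ≤ u ∧ u ≤ 1 ∧ ε < |RM z b β c M u|}
      ⊆ {u | 0 ≤ u ∧ u ≤ 1 ∧ ε < |GM z b β c M u|} ∪ {u | AM z b β c M u ≠ 0} := by
    rintro u ⟨h3, h4, h5⟩
    by_cases hA : AM z b β c M u = 0
    · left
      rw [RM_eq, hA, zero_div, add_zero] at h5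
      exact ⟨h3, h4, h5⟩
    · right; exact hA
  refine (measure_mono hsub).trans ((measure_union_le _ _).trans ((add_le_add h1 h2).trans ?_))
  rw [← ENNReal.ofReal_add (by positivity) (by positivity)]
  apply ENNReal.ofReal_le_ofReal
  apply le_of_eq
  ring

theorem hcont_RM_zero (hz : ∀ n, |z n| ≤ 1) {b : ℕ} {β : ℝ} (hβ : 1 ≤ β) (hb : β ≤ b)
    (c : ℝ) : hcont (sg b) (sg_pos b)
      {u | 0 ≤ u ∧ u ≤ 1 ∧ ¬ Tendsto (fun M : ℕ => RM z b β c M u) atTop (𝓝 0)} = 0 := by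
  have key : ∀ ε : ℝ, 0 < ε → hcont (sg b) (sg_pos b)
      {u | ∃ᶠ M : ℕ in atTop, 0 ≤ u ∧ u ≤ 1 ∧ ε < |RM z b β c M u|} = 0 := by
    intro ε hε
    obtain ⟨C, hC0, hC⟩ := hcont_RM hβ hb c hε
    obtain ⟨M0, hM0⟩ := eventually_atTop.1 hC
    have hsum : Summable (fun M : ℕ => C * ((M + M0 : ℕ) : ℝ) ^ (-(3 / 2) : ℝ)) := by
      apply Summable.mul_left
      have h2 : Summable (fun M : ℕ => (M : ℝ) ^ (-(3 / 2) : ℝ)) := by
        rw [Real.summable_nat_rpow]; norm_num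
      exact (summable_nat_add_iff (f := fun M : ℕ => (M : ℝ) ^ (-(3 / 2) : ℝ)) M0).2 h2
    have h3 : ∑' M : ℕ, hcont (sg b) (sg_pos b)
        {u | 0 ≤ u ∧ u ≤ 1 ∧ ε < |RM z b β c (M + M0) u|} ≠ ⊤ := by
      refine ne_top_of_le_ne_top ?_ (ENNReal.tsum_le_tsum fun M => hM0 (M + M0) (by omega) z hz)
      rw [← ENNReal.ofReal_tsum_of_nonneg (fun M => by positivity) hsum]
      exact ENNReal.ofReal_ne_top
    have h4 := measure_limsup_atTop_eq_zero h3
    refine measure_mono_null ?_ h4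
    intro u hu
    rw [mem_limsup_iff_frequently_mem]
    have hu' : ∃ᶠ M : ℕ in atTop, 0 ≤ u ∧ u ≤ 1 ∧ ε < |RM z b β c M u| := hu
    rw [frequently_atTop] at hu' ⊢
    intro a
    obtain ⟨M, hM, hM2⟩ := hu' (a + M0)
    refine ⟨M - M0, by omega, ?_⟩
    have : M - M0 + M0 = M := by omega
    simp only [Set.mem_ofPred_eq, this]
    exact hM2
  have hsub : {u | 0 ≤ u ∧ u ≤ 1 ∧ ¬ Tendsto (fun M : ℕ => RM z b β c M u) atTop (𝓝 0)}
      ⊆ ⋃ k : ℕ, {u | ∃ᶠ M : ℕ in atTop,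
          0 ≤ u ∧ u ≤ 1 ∧ 1 / ((k : ℝ) + 1) < |RM z b β c M u|} := by
    rintro u ⟨h1, h2, h3⟩
    rw [Set.mem_iUnion]
    by_contra hcon
    push Not at hcon
    apply h3
    rw [Metric.tendsto_atTop]
    intro ε hε
    obtain ⟨k, hk⟩ := exists_nat_one_div_lt hε
    have h4 : ¬ ∃ᶠ M : ℕ in atTop,
        0 ≤ u ∧ u ≤ 1 ∧ 1 / ((k : ℝ) + 1) < |RM z b β c M u| := hcon k
    rw [not_frequently, eventually_atTop] at h4
    obtain ⟨M0, hM0⟩ := h4
    refine ⟨M0, fun M hM => ?_⟩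
    have h5 := hM0 M hM
    rw [Real.dist_eq, sub_zero]
    by_contra h6
    push Not at h6
    exact h5 ⟨h1, h2, hk.trans_le h6⟩
  refine measure_mono_null hsub ?_
  rw [measure_iUnion_null_iff]
  intro k
  exact key _ (by positivity)

end MargS
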