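import Pool.Agent.Marg.Params

/-!
# The family of derivatives of `β log`
-/

open Real Marg

namespace MargS

/-- derivatives of `β log` -/
noncomputable def DL (β : ℝ) (j : ℕ) (x : ℝ) : ℝ := β * (j.factorial : ℝ) / x ^ (j + 1)

/-- `β log` -/
noncomputable def bl (β x : ℝ) : ℝ := β * log x

lemma one_le_log {x : ℝ} (hx : 3 ≤ x) : 1 ≤ log x := by
  rw [Real.le_log_iff_exp_le (by linarith)]
  linarith [Real.exp_one_lt_d9]

lemma hasDerivAt_DL (β : ℝ) (j : ℕ) {x : ℝ} (hx : 3 ≤ x) :
    HasDerivAt (DL β j) (-(DL β (j + 1) x)) x := by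
  have hx0 : x ≠ 0 := by linarith
  have h3 : HasDerivAt (fun y : ℝ => y ^ (j + 1)) (((j + 1 : ℕ) : ℝ) * x ^ j) x := by
    simpa using hasDerivAt_pow (j + 1) x
  have h4 := (hasDerivAt_const x (β * (j.factorial : ℝ))).div h3 (pow_ne_zero _ hx0)
  refine h4.congr_deriv ?_
  unfold DL
  rw [Nat.factorial_succ]
  push_cast
  field_simp
  ring

lemma famB_log {β : ℝ} (hβ : 1 ≤ β) :
    FamB (bl β) (DL β) 3 (fun j => β * (j.factorial : ℝ)) := by
  refine { deriv0 := ?_, deriv := fun j x hx => hasDerivAt_DL β j hx, pos := ?_,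
           one_le := by norm_num, upper := ?_, lower := ?_ }
  · intro x hx
    have hx0 : x ≠ 0 := by linarith
    have h := (Real.hasDerivAt_log hx0).const_mul β
    refine h.congr_deriv ?_
    simp [DL, div_eq_mul_inv]
  · intro j x hx
    have : 0 < x := by linarith
    unfold DL
    positivity
  · intro j x hx
    exact le_rfl
  · intro j x hx
    have hl := one_le_log hx
    have hx' : 0 < x := by linarith
    have h1 : (1 : ℝ) ≤ (j.factorial : ℝ) := by
      exact_mod_cast Nat.factorial_pos j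
    unfold DL
    calc 1 / (x ^ (j + 1) * log x) ≤ 1 / (x ^ (j + 1) * 1) := by gcongr
      _ = 1 * 1 / x ^ (j + 1) := by rw [mul_one, mul_one]
      _ ≤ β * (j.factorial : ℝ) / x ^ (j + 1) := by gcongr

end MargS
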