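import Pool.Agent.MargS.L2

/-!
# The low frequency part
-/

open Finset Real MeasureTheory Filter Topology Marg
open scoped InnerProductSpace ENNReal NNReal

namespace MargS

variable {z : ℕ → ℝ}

lemma power_avg_bound (hz : ∀ n, |z n| ≤ 1) {ε Y β : ℝ} (hε : 0 < ε) (hβ : 1 ≤ β) (hY : 1 ≤ Y)
    (h : ∀ y, Y ≤ y → |prim (zf z) y| ≤ ε * y) {N : ℝ} (hN : Y ≤ N) :
    |∫ x in N..(2 * N), zf z (x ^ β)| ≤ 3 * ε * N := by
  have hN1 : (1 : ℝ) ≤ N := hY.trans hN
  have hle : (N : ℝ) ≤ 2 * N := by linarith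
  set S := prim (zf z) with hS
  have hSc : Continuous S := (zf_bdd hz).prim_cont
  have hpos : ∀ x ∈ Set.Icc (N : ℝ) (2 * N), 0 < x := fun x hx => by linarith [hx.1]
  have hbig : ∀ x ∈ Set.Icc (N : ℝ) (2 * N), Y ≤ x ^ β := by
    intro x hx
    have hx1 : 1 ≤ x := by linarith [hx.1]
    calc Y ≤ x := by linarith [hx.1]
      _ = x ^ (1 : ℝ) := (Real.rpow_one x).symm
      _ ≤ x ^ β := Real.rpow_le_rpow_of_exponent_le hx1 hβ
  have hpc : ContinuousOn (fun x : ℝ => x ^ β) (Set.Icc (N : ℝ) (2 * N)) := by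
    intro x hx
    exact (Real.continuousAt_rpow_const x β (Or.inl (hpos x hx).ne')).continuousWithinAt
  have hqc : ∀ γ : ℝ, ContinuousOn (fun x : ℝ => x ^ γ) (Set.Icc (N : ℝ) (2 * N)) := by
    intro γ x hx
    exact (Real.continuousAt_rpow_const x γ (Or.inl (hpos x hx).ne')).continuousWithinAt
  set G : ℝ → ℝ := fun x => S (x ^ β) * x ^ (1 - β) with hG
  set G2 : ℝ → ℝ := fun x => (β - 1) * (S (x ^ β) * x ^ (-β)) with hG2
  have hG2c : ContinuousOn G2 (Set.Icc (N : ℝ) (2 * N)) :=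
    continuousOn_const.mul ((hSc.comp_continuousOn hpc).mul (hqc _))
  have hint2 : IntervalIntegrable G2 volume (N : ℝ) (2 * N) := by
    apply ContinuousOn.intervalIntegrable
    rwa [Set.uIcc_of_le hle]
  have hint1 : IntervalIntegrable (fun x => zf z (x ^ β)) volume (N : ℝ) (2 * N) := by
    rw [intervalIntegrable_iff_integrableOn_Icc_of_le hle]
    refine IntegrableOn.of_bound (by simp) ?_ 1 (Eventually.of_forall fun x => hz _)
    exact ((zf_bdd hz).meas.comp_aemeasurable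
      (hpc.aemeasurable measurableSet_Icc)).aestronglyMeasurable
  have hcount : ((fun x : ℝ => x ^ β) ⁻¹' (Set.range (fun n : ℕ => (n : ℝ)))
      ∩ Set.Icc (N : ℝ) (2 * N)).Countable := by
    apply Set.MapsTo.countable_of_injOn (t := Set.range (fun n : ℕ => (n : ℝ)))
      (f := fun x : ℝ => x ^ β) (fun x hx => hx.1) _ (Set.countable_range _)
    intro x hx y hy hxy
    have hx0 := (hpos x hx.2).le
    have hy0 := (hpos y hy.2).le
    exact (Real.rpow_left_inj hx0 hy0 (by linarith)).1 hxy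
  have hkey : ∫ x in (N : ℝ)..(2 * N : ℝ), (β * zf z (x ^ β) - G2 x)
      = G (2 * N) - G N := by
    apply integral_eq_of_hasDerivAt_off_countable_of_le G _ hle hcount
    · exact (hSc.comp_continuousOn hpc).mul (hqc _)
    · intro x hx
      have hxI : x ∈ Set.Icc (N : ℝ) (2 * N) := ⟨hx.1.1.le, hx.1.2.le⟩
      have hx0 := hpos x hxI
      have hxs : x ^ β ∉ Set.range (fun n : ℕ => (n : ℝ)) := fun hh => hx.2 ⟨hh, hxI⟩
      have h1 : HasDerivAt (fun x : ℝ => x ^ β) (β * x ^ (β - 1)) x :=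
        Real.hasDerivAt_rpow_const (Or.inl hx0.ne')
      have h2 : HasDerivAt (fun x : ℝ => x ^ (1 - β)) ((1 - β) * x ^ (1 - β - 1)) x :=
        Real.hasDerivAt_rpow_const (Or.inl hx0.ne')
      have h3 : HasDerivAt S (zf z (x ^ β)) (x ^ β) :=
        (zf_bdd hz).hasDerivAt_prim (zf_continuousAt hxs (by positivity))
      have h4 := (h3.comp x h1).mul h2
      refine h4.congr_deriv ?_
      have e1 : x ^ (β - 1) * x ^ (1 - β) = 1 := by
        rw [← Real.rpow_add hx0]; simp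
      have e2 : (1 - β - 1) = -β := by ring
      simp only [hG2, Function.comp]
      rw [e2]
      linear_combination (zf z (x ^ β) * β) * e1
    · exact (hint1.const_mul β).sub hint2
  have hGle : ∀ x ∈ Set.Icc (N : ℝ) (2 * N), |G x| ≤ ε * x := by
    intro x hx
    have hx0 := hpos x hx
    have h1 := h (x ^ β) (hbig x hx)
    simp only [hG]
    rw [abs_mul, abs_of_pos (Real.rpow_pos_of_pos hx0 _)]
    calc |S (x ^ β)| * x ^ (1 - β) ≤ ε * x ^ β * x ^ (1 - β) := by gcongr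
      _ = ε * (x ^ β * x ^ (1 - β)) := by ring
      _ = ε * x := by
          rw [← Real.rpow_add hx0]; simp
  have hG2le : ∀ x ∈ Set.Icc (N : ℝ) (2 * N), |G2 x| ≤ (β - 1) * ε := by
    intro x hx
    have hx0 := hpos x hx
    have h1 := h (x ^ β) (hbig x hx)
    simp only [hG2]
    rw [abs_mul, abs_mul, abs_of_nonneg (by linarith : 0 ≤ β - 1),
      abs_of_pos (Real.rpow_pos_of_pos hx0 (-β))]
    have h2 : |S (x ^ β)| * x ^ (-β) ≤ ε := by
      calc |S (x ^ β)| * x ^ (-β) ≤ ε * x ^ β * x ^ (-β) := by gcongr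
        _ = ε * (x ^ β * x ^ (-β)) := by ring
        _ = ε := by rw [← Real.rpow_add hx0]; simp
    exact mul_le_mul_of_nonneg_left h2 (by linarith)
  rw [intervalIntegral.integral_sub (hint1.const_mul β) hint2,
    intervalIntegral.integral_const_mul] at hkey
  have hI2 : |∫ x in (N : ℝ)..(2 * N : ℝ), G2 x| ≤ (β - 1) * ε * N := by
    have := intervalIntegral.norm_integral_le_of_norm_le_const (a := (N : ℝ)) (b := 2 * N)
      (f := G2) (C := (β - 1) * ε) (by
        intro x hx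
        rw [Set.uIoc_of_le hle] at hx
        exact hG2le x ⟨hx.1.le, hx.2⟩)
    rw [Real.norm_eq_abs] at this
    have e : |2 * (N : ℝ) - N| = N := by rw [abs_of_nonneg] <;> linarith
    rwa [e] at this
  have hGa := hGle N ⟨le_rfl, hle⟩
  have hGb := hGle (2 * N) ⟨hle, le_rfl⟩
  have h8 : β * |∫ x in (N : ℝ)..(2 * N : ℝ), zf z (x ^ β)| ≤ (β + 2) * ε * N := by
    have e1 : β * |∫ x in (N : ℝ)..(2 * N : ℝ), zf z (x ^ β)|
        = |β * ∫ x in (N : ℝ)..(2 * N : ℝ), zf z (x ^ β)| := by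
      rw [abs_mul, abs_of_pos (by linarith : 0 < β)]
    have e2 : β * ∫ x in (N : ℝ)..(2 * N : ℝ), zf z (x ^ β)
        = G (2 * N) - G N + ∫ x in (N : ℝ)..(2 * N : ℝ), G2 x := by linarith
    rw [e1, e2]
    refine (abs_add_le _ _).trans ?_
    have := abs_sub (G (2 * N)) (G N)
    nlinarith
  have h9 : (β + 2) * ε * N ≤ β * (3 * ε * N) := by
    have : 0 ≤ ε * N := by positivity
    nlinarith
  have hβ0 : 0 < β := by linarith
  exact le_of_mul_le_mul_left (h8.trans h9) hβ0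

lemma scaled_avg_tendsto (hz : ∀ n, |z n| ≤ 1)
    (hc : Tendsto (fun n : ℕ => (∑ k ∈ range n, z k) / n) atTop (𝓝 0)) {β : ℝ} (hβ : 1 ≤ β)
    {s : ℝ} (hs : 0 < s) :
    Tendsto (fun N : ℕ => (∫ x in (N : ℝ)..(2 * N : ℝ), zf z (s * x ^ β)) / N) atTop (𝓝 0) := by
  set σ : ℝ := s ^ (1 / β) with hσ
  have hσ0 : 0 < σ := Real.rpow_pos_of_pos hs _
  have hβ0 : β ≠ 0 := by linarith
  have hσβ : σ ^ β = s := by
    rw [hσ, ← Real.rpow_mul hs.le, one_div_mul_cancel hβ0, Real.rpow_one]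
  rw [Metric.tendsto_atTop]
  intro ε hε
  obtain ⟨Y, hY, h⟩ := prim_zf_small hz hc (show 0 < ε / 4 by positivity)
  refine ⟨⌈Y / σ⌉₊ + 1, fun N hN => ?_⟩
  have hN1 : (1 : ℝ) ≤ N := by
    have : 1 ≤ N := by omega
    exact_mod_cast this
  have hN' : Y / σ ≤ N := by
    refine (Nat.le_ceil _).trans ?_
    have : ⌈Y / σ⌉₊ ≤ N := by omega
    exact_mod_cast this
  have hN2 : Y ≤ σ * N := by
    rw [div_le_iff₀ hσ0] at hN'
    linarith
  have h1 := power_avg_bound hz (by positivity) hβ hY h hN2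
  have hN0 : (0 : ℝ) < N := by linarith
  have h2 : ∫ x in (N : ℝ)..(2 * N : ℝ), zf z (s * x ^ β) =
      σ⁻¹ * ∫ x in (σ * N)..(2 * (σ * N)), zf z (x ^ β) := by
    have h3 := intervalIntegral.integral_comp_mul_left (a := (N : ℝ)) (b := 2 * N)
      (fun x => zf z (x ^ β)) hσ0.ne'
    have h4 : σ * (2 * (N : ℝ)) = 2 * (σ * N) := by ring
    rw [h4] at h3
    rw [smul_eq_mul] at h3
    rw [← h3]
    apply intervalIntegral.integral_congr
    intro x hx
    rw [Set.uIcc_of_le (by linarith)] at hx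
    simp only
    rw [Real.mul_rpow hσ0.le (by linarith [hx.1]), hσβ]
  rw [Real.dist_eq, sub_zero, abs_div, abs_of_pos hN0, div_lt_iff₀ hN0, h2, abs_mul,
    abs_of_pos (inv_pos.2 hσ0)]
  calc σ⁻¹ * |∫ x in (σ * N)..(2 * (σ * N)), zf z (x ^ β)|
      ≤ σ⁻¹ * (3 * (ε / 4) * (σ * N)) := by gcongr
    _ = 3 * (ε / 4) * N := by field_simp
    _ < ε * N := by nlinarith

/-- block average at `N = M ^ De (b + 1)` -/
noncomputable def TM (z : ℕ → ℝ) (b : ℕ) (β c : ℝ) (M : ℕ) (u : ℝ) : ℝ :=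
  (∑ i ∈ range (M ^ De (b + 1)), ZE z (u + lc β c ((M ^ De (b + 1) + i : ℕ) : ℝ)))
    / ((M ^ De (b + 1) : ℕ) : ℝ)

lemma ft_hasDerivAt (v0 v1 : ℝ) :
    ∃ s : Set ℝ, s.Countable ∧ ∀ v, v ∉ s → ContinuousAt (ft z v0 v1) v := by
  refine ⟨(fun v => exp v) ⁻¹' (Set.range (fun n : ℕ => (n : ℝ))) ∪ {v0, v1}, ?_, ?_⟩
  · refine Set.Countable.union ?_ (by simp)
    apply Set.Countable.preimage_of_injOn (Set.countable_range _)
    intro x _ y _ hxy
    exact Real.exp_injective hxy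
  · intro v hv
    rw [Set.mem_union, not_or] at hv
    obtain ⟨h1, h2⟩ := hv
    simp only [Set.mem_insert_iff, Set.mem_singleton_iff, not_or] at h2
    have hZ : ContinuousAt (ZE z) v := by
      unfold ZE
      have hc : ContinuousAt (zf z) (exp v) := zf_continuousAt h1 (exp_pos _).le
      exact ContinuousAt.comp (f := fun v => exp v) hc Real.continuous_exp.continuousAt
    rcases lt_trichotomy v v0 with h | h | h
    · have : ∀ᶠ y in 𝓝 v, ft z v0 v1 y = 0 := by
        filter_upwards [Iio_mem_nhds h] with y hy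
        exact ft_supp v0 v1 y (fun hh => absurd hh.1 (not_le.2 hy))
      exact ContinuousAt.congr continuousAt_const (this.mono fun y hy => hy.symm)
    · exact absurd h h2.1
    · rcases lt_trichotomy v v1 with h' | h' | h'
      · have : ∀ᶠ y in 𝓝 v, ft z v0 v1 y = ZE z y := by
          filter_upwards [Ioo_mem_nhds h h'] with y hy
          exact ft_eq ⟨hy.1.le, hy.2.le⟩
        exact hZ.congr (this.mono fun y hy => hy.symm)
      · exact absurd h' h2.2
      · have : ∀ᶠ y in 𝓝 v, ft z v0 v1 y = 0 := by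
          filter_upwards [Ioi_mem_nhds h'] with y hy
          exact ft_supp v0 v1 y (fun hh => absurd hh.2 (not_le.2 hy))
        exact ContinuousAt.congr continuousAt_const (this.mono fun y hy => hy.symm)

/-- The low frequency part. -/
theorem pointwise (hz : ∀ n, |z n| ≤ 1) {b : ℕ} {β : ℝ} (hβ : 1 ≤ β) (c : ℝ) {u : ℝ}
    (hu0 : 0 ≤ u) (hu1 : u ≤ 1) :
    ∀ᶠ M : ℕ in atTop, |TM z b β c M u - RM z b β c M u
      - (∫ x in ((M ^ De (b + 1) : ℕ) : ℝ)..(2 * ((M ^ De (b + 1) : ℕ) : ℝ)),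
          zf z (exp (u + c) * x ^ β)) / ((M ^ De (b + 1) : ℕ) : ℝ)| ≤ (2 * β + 4) / (M : ℝ) := by
  set Q := b + 1 with hQ
  filter_upwards [eventually_ge_atTop 3] with M hM3
  have hM1 : 1 ≤ M := by omega
  have hμ3 : (3 : ℝ) ≤ M := by exact_mod_cast hM3
  have hμ : (1 : ℝ) ≤ M := by linarith
  set N : ℕ := M ^ De Q with hN
  have hNr : ((N : ℕ) : ℝ) = (M : ℝ) ^ De Q := by rw [hN]; push_cast; rfl
  have hMN : (M : ℝ) ≤ (N : ℝ) := by
    rw [hNr]
    exact le_self_pow₀ hμ (by unfold De; omega)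
  have hN3 : (3 : ℝ) ≤ N := hμ3.trans hMN
  have hN0 : (0 : ℝ) < N := by linarith
  set v0 : ℝ := lc β c (N : ℝ) - 1 with hv0
  set v1 : ℝ := 1 + lc β c (2 * (N : ℝ)) with hv1
  have hf : fM z b β c M = ft z v0 v1 := rfl
  have hBf : Bdd (ft z v0 v1) := ft_bdd hz v0 v1
  set s0 : ℝ := sc Q M 0 with hs0
  have hs0pos : 0 < s0 := sc_pos hM1 0
  have hs0e : s0 = (M : ℝ) ^ rh Q / N := by
    rw [hs0]; unfold sc th; rw [hNr]; simp
  have hmem : ∀ x : ℝ, (N : ℝ) ≤ x → x ≤ 2 * N → u + lc β c x ∈ Set.Icc v0 v1 := by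
    intro x h1 h2
    constructor
    · have := lc_mono hβ c hN3 h1
      linarith
    · have := lc_mono hβ c (by linarith : (3 : ℝ) ≤ x) h2
      linarith
  have hF := famB_lc hβ c
  have hll : Good (DL β) 3 0 1 0 (lc β c) (DL β) := good_zero hF.toFam
  -- step 1: TM - RM
  have hstep1 : TM z b β c M u - RM z b β c M u
      = (∑ i ∈ range N, sm (ft z v0 v1) s0 (u + lc β c ((N + i : ℕ) : ℝ))) / N := by
    unfold TM RM
    rw [← sub_div, ← Finset.sum_sub_distrib]
    congr 1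
    refine Finset.sum_congr rfl fun i hi => ?_
    rw [hf]
    have hi' : (i : ℝ) ≤ N := by exact_mod_cast (mem_range.1 hi).le
    rw [ft_eq (hmem ((N + i : ℕ) : ℝ) (by push_cast; linarith [Nat.cast_nonneg (α := ℝ) i])
      (by push_cast; linarith))]
    ring
  -- step 2: sum versus integral
  have hDDN : DL β 0 (N : ℝ) = β / N := by
    simp [DL]
  have hgc : ContinuousOn (lc β c) (Set.Ici (N : ℝ)) := fun x hx =>
    (hll.1 x (hN3.trans hx)).continuousAt.continuousWithinAt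
  have hstep2 : |∑ i ∈ range N, sm (ft z v0 v1) s0 (u + lc β c ((N + i : ℕ) : ℝ))
      - ∫ x in (N : ℝ)..((N + N : ℕ) : ℝ), sm (ft z v0 v1) s0 (u + lc β c x)|
      ≤ N * (2 / s0 * (β / N)) := by
    apply abs_sum_sub_integral_le (F := fun x => sm (ft z v0 v1) s0 (u + lc β c x))
    · intro a c' hAa hAc
      apply ContinuousOn.intervalIntegrable
      have hFc : ContinuousOn (fun x => sm (ft z v0 v1) s0 (u + lc β c x)) (Set.Ici (N : ℝ)) :=
        (hBf.sm_cont s0).comp_continuousOn (continuousOn_const.add hgc)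
      apply hFc.mono
      intro x hx
      rcases le_total a c' with hab | hab
      · rw [Set.uIcc_of_le hab] at hx; exact hAa.trans hx.1
      · rw [Set.uIcc_of_ge hab] at hx; exact hAc.trans hx.1
    · intro i _ x hx
      have hi : (N : ℝ) ≤ ((N + i : ℕ) : ℝ) := by
        push_cast; linarith [Nat.cast_nonneg (α := ℝ) i]
      refine (hBf.sm_lip hs0pos _ _).trans ?_
      have e : u + lc β c ((N + i : ℕ) : ℝ) - (u + lc β c x)
          = lc β c ((N + i : ℕ) : ℝ) - lc β c x := by ring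
      rw [e]
      have h4 := good_lip hF.toFam one_pos le_rfl hll hN3 (hi.trans hx.1) hi
      have h5 : |((N + i : ℕ) : ℝ) - x| ≤ 1 := by
        rw [abs_le]; constructor <;> linarith [hx.1, hx.2]
      have hDn : 0 ≤ DL β 0 (N : ℝ) := (hF.pos 0 _ hN3).le
      have h6 : 1 * DL β 0 (N : ℝ) * |((N + i : ℕ) : ℝ) - x| ≤ β / N := by
        calc 1 * DL β 0 (N : ℝ) * |((N + i : ℕ) : ℝ) - x| ≤ 1 * DL β 0 (N : ℝ) * 1 := by gcongr
          _ = DL β 0 (N : ℝ) := by ring
          _ ≤ β / N := hDDN.le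
      have h7 := h4.trans h6
      gcongr
  -- step 3: smoothing of the integral
  obtain ⟨S, hSc, hS⟩ := ft_hasDerivAt (z := z) v0 v1
  have hNN : ((N + N : ℕ) : ℝ) = 2 * N := by push_cast; ring
  rw [hNN] at hstep2
  have hle2 : (N : ℝ) ≤ 2 * N := by linarith
  have hfm : AEStronglyMeasurable (fun x => ft z v0 v1 (u + lc β c x))
      (volume.restrict (Set.Icc (N : ℝ) (2 * N))) := by
    have h1 : AEMeasurable (fun x => u + lc β c x) (volume.restrict (Set.Icc (N : ℝ) (2 * N))) :=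
      (continuousOn_const.add (hgc.mono Set.Icc_subset_Ici_self)).aemeasurable measurableSet_Icc
    exact (hBf.meas.comp_aemeasurable h1).aestronglyMeasurable
  have hint1 : IntervalIntegrable (fun x => ft z v0 v1 (u + lc β c x)) volume (N : ℝ)
      (2 * N) := by
    rw [intervalIntegrable_iff_integrableOn_Icc_of_le hle2]
    exact IntegrableOn.of_bound (by simp) hfm 1 (Eventually.of_forall fun x => hBf.bound _)
  have hint2 : IntervalIntegrable (fun x => sm (ft z v0 v1) s0 (u + lc β c x)) volume (N : ℝ)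
      (2 * N) := by
    apply ContinuousOn.intervalIntegrable
    rw [Set.uIcc_of_le hle2]
    exact (hBf.sm_cont s0).comp_continuousOn
      (continuousOn_const.add (hgc.mono Set.Icc_subset_Ici_self))
  have hstep3 : |∫ x in (N : ℝ)..(2 * N), (sm (ft z v0 v1) s0 (u + lc β c x)
      - ft z v0 v1 (u + lc β c x))| ≤ 2 * s0 / DL β 0 (2 * N) := by
    apply abs_integral_comp_le (Ψ := fun v => psm (ft z v0 v1) s0 v - prim (ft z v0 v1) v)
      (ψ := fun v => sm (ft z v0 v1) s0 v - ft z v0 v1 v) (g := fun x => u + lc β c x)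
      (E0 := DL β 0) (E1 := DL β 1) (ε := 1) (s := S) (C := 2) hle2 hSc
    · exact (hBf.psm_cont s0).sub hBf.prim_cont
    · intro v hv
      exact (hBf.hasDerivAt_psm s0 v).sub (hBf.hasDerivAt_prim (hS v hv))
    · intro v
      exact hBf.psm_sub hs0pos v
    · exact (hBf.sm_cont s0).measurable.sub hBf.meas
    · intro v
      refine (abs_sub _ _).trans ?_
      linarith [hBf.sm_bound hs0pos v, hBf.bound v]
    · intro x hx
      have := (hF.deriv0 x (hN3.trans hx.1)).const_add u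
      simpa using this
    · left; rfl
    · intro x hx; exact hF.deriv 0 x (hN3.trans hx.1)
    · intro x hx
      exact (hF.deriv 1 x (hN3.trans hx.1)).continuousAt.continuousWithinAt
    · intro x hx; exact hF.pos 0 x (hN3.trans hx.1)
    · intro x hx; exact (hF.pos 1 x (hN3.trans hx.1)).le
  rw [intervalIntegral.integral_sub hint2 hint1] at hstep3
  -- step 4: identification of the integral
  have hstep4 : ∫ x in (N : ℝ)..(2 * N), ft z v0 v1 (u + lc β c x)
      = ∫ x in (N : ℝ)..(2 * N), zf z (exp (u + c) * x ^ β) := by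
    apply intervalIntegral.integral_congr
    intro x hx
    rw [Set.uIcc_of_le hle2] at hx
    simp only
    rw [ft_eq (hmem x hx.1 hx.2)]
    unfold ZE
    rw [lc_exp (by linarith [hx.1])]
  rw [hstep4] at hstep3
  -- numerical bounds
  have hnum1 : (2 : ℝ) / s0 * (β / N) ≤ 2 * β / M := by
    rw [hs0e]
    have : (M : ℝ) ≤ (M : ℝ) ^ rh Q := le_self_pow₀ hμ (rh_pos Q).ne'
    calc (2 : ℝ) / ((M : ℝ) ^ rh Q / N) * (β / N) = 2 * β / (M : ℝ) ^ rh Q := by field_simp
      _ ≤ 2 * β / M := by gcongr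
  have hnum2 : 2 * s0 / DL β 0 (2 * (N : ℝ)) ≤ N * (4 / M) := by
    have e : DL β 0 (2 * (N : ℝ)) = β / (2 * (N : ℝ)) := by
      simp [DL]
    have hpow : (M : ℝ) ^ rh Q * M ≤ N := by
      rw [hNr, ← pow_succ]
      apply pow_le_pow_right₀ hμ
      unfold De
      omega
    rw [e, hs0e]
    calc 2 * ((M : ℝ) ^ rh Q / N) / (β / (2 * (N : ℝ)))
        = 4 * ((M : ℝ) ^ rh Q) / β := by field_simp; ring
      _ ≤ 4 * ((M : ℝ) ^ rh Q) / 1 := by gcongr
      _ = 4 * ((M : ℝ) ^ rh Q) := by rw [div_one]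
      _ ≤ 4 * (N / M) := by
          gcongr
          rw [le_div_iff₀ (by linarith)]
          exact hpow
      _ = N * (4 / M) := by ring
  rw [hstep1, ← sub_div, abs_div, abs_of_pos hN0, div_le_iff₀ hN0]
  set Sm := ∑ i ∈ range N, sm (ft z v0 v1) s0 (u + lc β c ((N + i : ℕ) : ℝ))
  set I1 := ∫ x in (N : ℝ)..(2 * N), sm (ft z v0 v1) s0 (u + lc β c x)
  set I2 := ∫ x in (N : ℝ)..(2 * N), zf z (exp (u + c) * x ^ β)
  calc |Sm - I2| = |(Sm - I1) + (I1 - I2)| := by ring_nf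
    _ ≤ |Sm - I1| + |I1 - I2| := abs_add_le _ _
    _ ≤ N * (2 / s0 * (β / N)) + 2 * s0 / DL β 0 (2 * N) := add_le_add hstep2 hstep3
    _ ≤ N * (2 * β / M) + N * (4 / M) := by gcongr
    _ = (2 * β + 4) / M * N := by ring

/-- convergence of the high frequency part implies convergence of the averages -/
theorem conv_of_RM (hz : ∀ n, |z n| ≤ 1)
    (hc : Tendsto (fun n : ℕ => (∑ k ∈ range n, z k) / (n : ℝ)) atTop (𝓝 0))
    {b : ℕ} {β : ℝ} (hβ : 1 ≤ β) {c u : ℝ} (hu0 : 0 ≤ u) (hu1 : u ≤ 1)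
    (hu : Tendsto (fun M : ℕ => RM z b β c M u) atTop (𝓝 0)) :
    Tendsto (fun n : ℕ => (∑ k ∈ range n, z ⌊exp (u + c) * (k : ℝ) ^ β⌋₊) / (n : ℝ))
      atTop (𝓝 0) := by
  have hDe : 1 ≤ De (b + 1) := by unfold De; omega
  have hI : Tendsto (fun M : ℕ =>
      (∫ x in ((M ^ De (b + 1) : ℕ) : ℝ)..(2 * ((M ^ De (b + 1) : ℕ) : ℝ)),
      zf z (exp (u + c) * x ^ β)) / ((M ^ De (b + 1) : ℕ) : ℝ)) atTop (𝓝 0) :=
    (scaled_avg_tendsto hz hc hβ (exp_pos _)).comp (tendsto_pow_atTop (by omega))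
  have hE : Tendsto (fun M : ℕ => TM z b β c M u - RM z b β c M u
      - (∫ x in ((M ^ De (b + 1) : ℕ) : ℝ)..(2 * ((M ^ De (b + 1) : ℕ) : ℝ)),
          zf z (exp (u + c) * x ^ β))
        / ((M ^ De (b + 1) : ℕ) : ℝ)) atTop (𝓝 0) := by
    apply squeeze_zero_norm' (a := fun M : ℕ => (2 * β + 4) / (M : ℝ))
    · filter_upwards [pointwise hz hβ c hu0 hu1] with M hM
      rw [Real.norm_eq_abs]; exact hM
    · exact tendsto_const_nhds.div_atTop tendsto_natCast_atTop_atTop
  have hT : Tendsto (fun M : ℕ => TM z b β c M u) atTop (𝓝 0) := by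
    have := (hE.add hI).add hu
    simp only [add_zero] at this
    refine this.congr fun M => ?_
    ring
  apply block_to_full (w := fun k => z ⌊exp (u + c) * (k : ℝ) ^ β⌋₊) (fun n => hz _) hDe
  refine hT.congr' ?_
  filter_upwards [eventually_ge_atTop 3] with M hM
  unfold TM
  congr 1
  refine Finset.sum_congr rfl fun i _ => ?_
  have h3 : (0 : ℝ) < ((M ^ De (b + 1) + i : ℕ) : ℝ) := by
    have : M ≤ M ^ De (b + 1) := Nat.le_self_pow (by omega) M
    have : 0 < M ^ De (b + 1) + i := by omega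
    exact_mod_cast this
  unfold ZE zf
  rw [lc_exp h3]

end MargS
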