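import Pool.Agent.MargS.Log
import Pool.Agent.Marg.Coarse

/-!
# The truncated step function `v ↦ z ⌊exp v⌋`
-/

open Finset Real MeasureTheory Filter Topology Marg
open scoped InnerProductSpace

namespace MargS

variable {z : ℕ → ℝ}

/-- the function `v ↦ z ⌊exp v⌋` -/
noncomputable def ZE (z : ℕ → ℝ) (v : ℝ) : ℝ := zf z (exp v)

/-- its truncation to `[v0, v1]` -/
noncomputable def ft (z : ℕ → ℝ) (v0 v1 : ℝ) : ℝ → ℝ := Set.indicator (Set.Icc v0 v1) (ZE z)

lemma ZE_meas (hz : ∀ n, |z n| ≤ 1) : Measurable (ZE z) :=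
  (zf_bdd hz).meas.comp Real.measurable_exp

lemma ft_bdd (hz : ∀ n, |z n| ≤ 1) (v0 v1 : ℝ) : Bdd (ft z v0 v1) := by
  refine ⟨(ZE_meas hz).indicator measurableSet_Icc, fun v => ?_⟩
  unfold ft
  by_cases hv : v ∈ Set.Icc v0 v1
  · rw [Set.indicator_of_mem hv]; exact hz _
  · rw [Set.indicator_of_notMem hv]; simp

lemma ft_supp (v0 v1 : ℝ) : ∀ v, v ∉ Set.Icc v0 v1 → ft z v0 v1 v = 0 :=
  fun v hv => Set.indicator_of_notMem hv _

lemma ft_eq {v0 v1 v : ℝ} (hv : v ∈ Set.Icc v0 v1) : ft z v0 v1 v = ZE z v :=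
  Set.indicator_of_mem hv _

/-- the exceptional set of the smoothing -/
def badset (v0 v1 s : ℝ) (K : ℕ) : Set ℝ :=
  (⋃ k ∈ Finset.range (K + 1), Set.Icc (log k) (log k + s)) ∪
    (Set.Icc v0 (v0 + s) ∪ Set.Icc v1 (v1 + s))

/-- Outside the exceptional set the smoothing does not change the function. -/
lemma sm_eq_of_notMem_badset (hz : ∀ n, |z n| ≤ 1) {v0 v1 s : ℝ} (hs : 0 < s)
    {K : ℕ} (hK : exp v1 ≤ K) {v : ℝ} (hv : v ∉ badset v0 v1 s K) :
    sm (ft z v0 v1) s v = ft z v0 v1 v := by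
  unfold badset at hv
  rw [Set.mem_union, Set.mem_union, not_or, not_or] at hv
  obtain ⟨ha, hb, hc⟩ := hv
  apply (ft_bdd hz v0 v1).sm_eq hs
  intro t ht
  by_cases h1 : v < v0
  · rw [ft_supp v0 v1 v (fun h => absurd h.1 (not_le.2 h1)),
      ft_supp v0 v1 t (fun h => absurd (h.1.trans ht.2) (not_le.2 h1))]
  push Not at h1
  have h2 : v0 + s < v := by
    by_contra hcon
    push Not at hcon
    exact hb ⟨h1, hcon⟩
  by_cases h3 : v < v1
  · -- middle case
    have hvm : v ∈ Set.Icc v0 v1 := ⟨h1, h3.le⟩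
    have htm : t ∈ Set.Icc v0 v1 := ⟨by linarith [ht.1], ht.2.trans h3.le⟩
    rw [ft_eq hvm, ft_eq htm]
    unfold ZE zf
    congr 1
    have hle : ⌊exp t⌋₊ ≤ ⌊exp v⌋₊ := by
      apply Nat.floor_le_floor
      exact Real.exp_le_exp.2 ht.2
    rcases hle.lt_or_eq with hlt | heq
    · exfalso
      apply ha
      have hpos : (0 : ℝ) ≤ exp t := (exp_pos _).le
      have hk1 : exp t < (⌊exp v⌋₊ : ℝ) := by
        rw [← Nat.floor_lt hpos]; exact hlt
      have hk2 : (⌊exp v⌋₊ : ℝ) ≤ exp v := Nat.floor_le (exp_pos _).le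
      set k := ⌊exp v⌋₊ with hk
      have hk0 : (0 : ℝ) < k := (exp_pos t).trans hk1
      have e1 : t < log k := by
        rw [Real.lt_log_iff_exp_lt hk0]
        exact hk1
      have e2 : log k ≤ v := by
        rw [Real.log_le_iff_le_exp hk0]
        exact hk2
      rw [Set.mem_iUnion₂]
      refine ⟨k, ?_, ?_⟩
      · rw [Finset.mem_range, Nat.lt_succ_iff]
        have : (k : ℝ) ≤ K := by
          refine hk2.trans (le_trans ?_ hK)
          exact Real.exp_le_exp.2 h3.le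
        exact_mod_cast this
      · exact ⟨e2, by linarith [ht.1]⟩
    · exact heq
  · push Not at h3
    have h4 : v1 + s < v := by
      by_contra hcon
      push Not at hcon
      exact hc ⟨h3, hcon⟩
    rw [ft_supp v0 v1 v (fun h => by linarith [h.2]),
      ft_supp v0 v1 t (fun h => by linarith [h.2, ht.1])]

/-- difference between the function and its smoothing -/
noncomputable def rem0 (z : ℕ → ℝ) (v0 v1 s v : ℝ) : ℝ := ft z v0 v1 v - sm (ft z v0 v1) s v

end MargS
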